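import Mathlib

set_option autoImplicit false

namespace Pool.Agent.Results.MP_26d357_co.Exact

open Finset

inductive KTree {V : Type} [DecidableEq V] (k : ℕ) : Finset V → SimpleGraph V → Prop
  | base (s : Finset V) (G : SimpleGraph V) (hs : s.card = k + 1)
      (h : ∀ a b, G.Adj a b ↔ a ∈ s ∧ b ∈ s ∧ a ≠ b) : KTree k s G
  | step (s C : Finset V) (G G' : SimpleGraph V) (v : V) (hG : KTree k s G) (hv : v ∉ s)
      (hC : C ⊆ s) (hk : G.IsNClique k C)
      (h : ∀ a b, G'.Adj a b ↔ G.Adj a b ∨ (a = v ∧ b ∈ C) ∨ (b = v ∧ a ∈ C)) :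
      KTree k (insert v s) G'

section
variable {V : Type} [DecidableEq V] {k : ℕ} {s : Finset V} {G : SimpleGraph V}

def Cl (G : SimpleGraph V) (s Q : Finset V) : Prop :=
  Q ⊆ s ∧ ∀ a ∈ Q, ∀ b ∈ Q, a ≠ b → G.Adj a b

lemma KTree.mem (h : KTree k s G) : ∀ a b, G.Adj a b → a ∈ s := by
  induction h with
  | base s G hs h => exact fun a b e => ((h a b).mp e).1
  | step s C G G' v hG hv hC hk h ih =>
    intro a b e
    rcases (h a b).mp e with e | e | e
    exacts [mem_insert_of_mem (ih a b e), by simp [e.1], mem_insert_of_mem (hC e.2)]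

lemma split {C Q : Finset V} {G' : SimpleGraph V} {v : V} (hG : KTree k s G) (hv : v ∉ s)
    (h : ∀ a b, G'.Adj a b ↔ G.Adj a b ∨ (a = v ∧ b ∈ C) ∨ (b = v ∧ a ∈ C))
    (hQ : Cl G' (insert v s) Q) : (v ∉ Q ∧ Cl G s Q) ∨ (v ∈ Q ∧ Q ⊆ insert v C) := by
  by_cases hq : v ∈ Q
  · refine Or.inr ⟨hq, fun a ha => ?_⟩
    by_cases e : a = v
    · simp [e]
    have := (h v a).mp (hQ.2 v hq a ha (Ne.symm e))
    have := hG.mem v a
    grind
  · refine Or.inl ⟨hq, fun a ha => ?_, fun a ha b hb e => ?_⟩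
    · have := hQ.1 ha; grind
    · have := (h a b).mp (hQ.2 a ha b hb e); grind

lemma KTree.ext (h : KTree k s G) : ∀ Q, Cl G s Q → ∃ K, Cl G s K ∧ K.card = k + 1 ∧ Q ⊆ K := by
  induction h with
  | base s G hs h => exact fun Q hQ => ⟨s, ⟨subset_rfl, fun a ha b hb e => (h a b).mpr ⟨ha, hb, e⟩⟩, hs, hQ.1⟩
  | step s C G G' v hG hv hC hk h ih =>
    intro Q hQ
    rcases split hG hv h hQ with ⟨-, h1⟩ | ⟨-, h1⟩
    · obtain ⟨K, h2, h3⟩ := ih Q h1
      exact ⟨K, ⟨h2.1.trans (subset_insert _ _), fun a ha b hb e =>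
        (h a b).mpr (Or.inl (h2.2 a ha b hb e))⟩, h3⟩
    · refine ⟨insert v C, ⟨insert_subset_insert _ hC, fun a ha b hb e => ?_⟩,
        by rw [card_insert_of_notMem fun e => hv (hC e), hk.2], h1⟩
      have := @hk.1 a
      rw [h]; grind [Set.Pairwise]

lemma KTree.miss (h : KTree k s G) : ∀ K, Cl G s K → K.card = k + 1 → ∀ m, m + (k + 1) ≤ s.card →
    ∃ W M : Finset V, W ⊆ s ∧ Disjoint W K ∧ W.card = m ∧ M.card ≤ m ∧
      ∀ x ∈ K, x ∉ M → ∀ w ∈ W, G.Adj x w := by
  induction h with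
  | base s G hs h => exact fun K _ _ m hm => ⟨∅, ∅, by simp, by simp, by simp; omega, by simp, by simp⟩
  | step s C G G' v hG hv hC hk h ih =>
    intro K hK hc m hm
    rcases m with _ | m
    · exact ⟨∅, ∅, by simp⟩
    rw [card_insert_of_notMem hv] at hm
    obtain ⟨B, b1, b2, b3⟩ := hG.ext C ⟨hC, fun a ha b hb e => hk.1 ha hb e⟩
    obtain ⟨y, hy⟩ : ∃ y, B \ C = {y} := card_eq_one.mp (by rw [card_sdiff_of_subset b3, b2, hk.2]; simp)
    have hy' : ∀ x, x ∈ B ∧ x ∉ C ↔ x = y := fun x => by rw [← mem_sdiff, hy, mem_singleton]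
    rcases split hG hv h hK with ⟨h0, h1⟩ | ⟨h0, h1⟩
    · by_cases hm' : m + 1 + (k + 1) ≤ s.card
      · obtain ⟨W, M, w1, w2, w3, w4, w5⟩ := ih K h1 hc _ hm'
        exact ⟨W, M, w1.trans (subset_insert _ _), w2, w3, w4, fun x a b w c =>
          (h x w).mpr (Or.inl (w5 x a b w c))⟩
      obtain ⟨W, M, w1, w2, w3, w4, w5⟩ := ih K h1 hc m (by omega)
      have hW : W ∪ K = s := eq_of_subset_of_card_le (union_subset w1 h1.1)
        (by rw [card_union_of_disjoint w2]; omega)
      refine ⟨insert v W, insert y M, insert_subset_insert _ w1, by simp [h0, w2],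
        by rw [card_insert_of_notMem fun e => hv (w1 e), w3], (card_insert_le _ _).trans (by omega),
        fun x a b w c => (h x w).mpr ?_⟩
      rw [mem_insert, not_or] at b
      rcases mem_insert.mp c with rfl | c
      swap
      · exact Or.inl (w5 x a b.2 w c)
      refine Or.inr (Or.inr ⟨rfl, by_contra fun e => ?_⟩)
      have hx : x ∉ B := fun e' => b.1 ((hy' x).mp ⟨e', e⟩)
      have ad : ∀ z ∈ B, G.Adj x z := fun z hz => by
        rcases mem_union.mp (hW.ge (b1.1 hz)) with e | e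
        exacts [w5 x a b.2 z e, h1.2 x a z e fun e => hx (e ▸ hz)]
      obtain ⟨K', -, k2, k3⟩ := hG.ext (insert x B) ⟨insert_subset (h1.1 a) b1.1, fun p hp q hq e0 => by
        rcases mem_insert.mp hp with rfl | hp1 <;> rcases mem_insert.mp hq with rfl | hq1
        exacts [absurd rfl e0, ad q hq1, (ad p hp1).symm, b1.2 p hp1 q hq1 e0]⟩
      have := card_le_card k3
      rw [card_insert_of_notMem hx] at this
      omega
    · obtain ⟨W, M, w1, w2, w3, w4, w5⟩ := ih B b1 b2 m (by omega)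
      obtain ⟨y1, y2⟩ := (hy' y).mpr rfl
      refine ⟨insert y W, insert v M, insert_subset (mem_insert_of_mem (b1.1 y1))
        (w1.trans (subset_insert _ _)), Disjoint.mono_right h1 ?_,
        by rw [card_insert_of_notMem fun e => disjoint_left.mp w2 e y1, w3],
        (card_insert_le _ _).trans (by omega), fun x a b w c => (h x w).mpr (Or.inl ?_)⟩
      · have := w2.mono_right b3
        have : v ∉ W := fun e => hv (w1 e)
        have : y ≠ v := fun e => hv (e ▸ b1.1 y1)
        rw [disjoint_left] at *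
        grind
      · rw [mem_insert, not_or] at b
        have hx : x ∈ C := (mem_insert.mp (h1 a)).resolve_left b.1
        rcases mem_insert.mp c with rfl | c
        exacts [b1.2 x (b3 hx) w y1 fun e => y2 (e ▸ hx), w5 x (b3 hx) b.2 w c]

lemma KTree.col (h : KTree k s G) (c : ℕ) (S : Set V) :
    (∀ Q, Cl G s Q → (Q : Set V) ⊆ S → Q.card ≤ c + 1) →
    ∃ f : V → Fin (c + 1), ∀ a ∈ S, ∀ b ∈ S, G.Adj a b → f a ≠ f b := by
  classical
  induction h with
  | base s G hs h =>
    intro hQ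
    have := hQ (s.filter (· ∈ S)) ⟨filter_subset _ _, fun a ha b hb e =>
      (h a b).mpr ⟨mem_of_mem_filter _ ha, mem_of_mem_filter _ hb, e⟩⟩ fun a ha => (mem_filter.mp ha).2
    obtain ⟨f, -, hf⟩ := (s.filter (· ∈ S)).finite_toSet.exists_injOn_of_encard_le
      (t := (Set.univ : Set (Fin (c + 1)))) (by
        rw [Set.encard_coe_eq_coe_finsetCard]; simpa using (Nat.cast_le (α := ℕ∞)).mpr this)
    exact ⟨f, fun a ha b hb e e' => e.ne (hf (by simp [ha, ((h a b).mp e).1])
      (by simp [hb, ((h a b).mp e).2.1]) e')⟩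
  | step s C G G' v hG hv hC hk h ih =>
    intro hQ
    obtain ⟨f, hf⟩ := ih fun Q h1 => hQ Q ⟨h1.1.trans (subset_insert _ _), fun a ha b hb e =>
      (h a b).mpr (Or.inl (h1.2 a ha b hb e))⟩
    have m1 := hG.mem v
    have m2 := fun a (e : G.Adj a v) => m1 a e.symm
    by_cases hS : v ∈ S
    swap
    · exact ⟨f, fun a ha b hb e => by have := (h a b).mp e; grind⟩
    have h1 := hQ (insert v (C.filter (· ∈ S))) ⟨insert_subset_insert _ ((filter_subset _ _).trans hC),
      fun a ha b hb e => by have := @hk.1 a; rw [h]; grind [Set.Pairwise]⟩ (by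
        intro a ha; simp at ha; grind)
    rw [card_insert_of_notMem fun e => hv (hC (mem_of_mem_filter _ e))] at h1
    obtain ⟨j, -, hj⟩ := exists_mem_notMem_of_card_lt_card (s := (C.filter (· ∈ S)).image f)
      (t := univ) (lt_of_le_of_lt card_image_le (by simp; omega))
    simp only [mem_image, mem_filter, not_exists, not_and] at hj
    refine ⟨Function.update f v j, fun a ha b hb e => ?_⟩
    have := (h a b).mp e
    have := e.ne
    grind

end

lemma upper {V : Type} [Fintype V] [DecidableEq V] {k t : ℕ} {G : SimpleGraph V}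
    (h : KTree k univ G) (hn : k + t + 2 ≤ Fintype.card V) :
    (G.induce {v | (G.neighborSet v).ncard = k + t}).Colorable (t + 1) := by
  obtain ⟨f, hf⟩ := h.col t {v | (G.neighborSet v).ncard = k + t} fun Q h1 h2 => by
    obtain ⟨K, k1, k2, k3⟩ := h.ext Q h1
    obtain ⟨W, M, -, w2, w3, w4, w5⟩ := h.miss K k1 k2 (t + 1) (by simp; omega)
    refine le_trans (card_le_card fun x hx => by_contra fun e => ?_) w4
    have a1 : (G.neighborSet x).ncard = k + t := h2 hx
    have a2 := Set.ncard_le_ncard (s := (K.erase x ∪ W : Finset V)) (t := G.neighborSet x) fun y hy => by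
      rcases mem_union.mp hy with hy | hy
      exacts [k1.2 x (k3 hx) y (mem_of_mem_erase hy) (ne_of_mem_erase hy).symm, w5 x (k3 hx) e y hy]
    rw [Set.ncard_coe_finset, card_union_of_disjoint (w2.symm.mono_left (erase_subset _ _)),
      card_erase_of_mem (k3 hx)] at a2
    omega
  exact ⟨SimpleGraph.Coloring.mk (fun v => f v.1) fun {a b} e => hf a a.2 b b.2 e⟩

def E (t m : ℕ) : SimpleGraph (Fin (t + 2) ⊕ Fin (t + 1)) where
  Adj a b := match a, b with
    | .inl x, .inl y => x ≠ y
    | .inl x, .inr y => y.1 < m ∧ x.1 ≠ y.1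
    | .inr y, .inl x => y.1 < m ∧ x.1 ≠ y.1
    | .inr _, .inr _ => False
  symm := ⟨by rintro (a | a) (b | b) h; exacts [Ne.symm h, h, h, h]⟩
  loopless := ⟨by rintro (a | a) h; exacts [h rfl, h]⟩

lemma E_tree (t m : ℕ) (hm : m ≤ t + 1) :
    KTree (t + 1) (univ.disjSum (univ.filter fun y => y.1 < m)) (E t m) := by
  induction m with
  | zero => exact .base _ _ (by simp) (by rintro (a | a) (b | b) <;> simp [E])
  | succ m ih =>
    have := KTree.step _ ((univ.erase ⟨m, by omega⟩).disjSum ∅) _ (E t (m + 1)) (.inr ⟨m, hm⟩)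
      (ih (by omega)) (by simp) (by rintro (a | a) <;> simp)
      ⟨by rintro (a | a) ha (b | b) hb e <;> simp_all [E], by simp⟩
      (by rintro (a | a) (b | b) <;> simp [E, Fin.ext_iff] <;> omega)
    convert this using 1
    ext (a | a) <;> simp [Fin.ext_iff]
    omega

theorem result (t : ℕ) : IsGreatest {c : ℕ∞ | ∃ (k : ℕ) (V : Type) (_ : Fintype V) (_ : DecidableEq V)
    (G : SimpleGraph V), 1 ≤ k ∧ KTree k univ G ∧ k + t + 2 ≤ Fintype.card V ∧
      c = (G.induce {v | (G.neighborSet v).ncard = k + t}).chromaticNumber} (t + 1) := by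
  constructor
  · have h : KTree (t + 1) univ (E t (t + 1)) := by
      convert E_tree t _ le_rfl
      ext (a | a) <;> simp
      omega
    have hn : t + 1 + t + 2 ≤ Fintype.card (Fin (t + 2) ⊕ Fin (t + 1)) := by simp; omega
    refine ⟨t + 1, _, inferInstance, inferInstance, _, by omega, h, hn,
      le_antisymm ?_ (upper h hn).chromaticNumber_le⟩
    have hd : ∀ x : Fin (t + 1), ((E t (t + 1)).neighborSet (.inl x.castSucc)).ncard = t + 1 + t := by
      intro x
      have : (E t (t + 1)).neighborSet (.inl x.castSucc) =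
          ((univ.erase x.castSucc).disjSum (univ.erase x) : Finset _) := by
        ext (a | a) <;> simp [E, Fin.ext_iff, eq_comm]
        omega
      rw [this, Set.ncard_coe_finset]; simp
    have := SimpleGraph.le_chromaticNumber_of_pairwise_adj (ι := Fin (t + 1)) (n := t + 1)
      (G := (E t (t + 1)).induce {v | ((E t (t + 1)).neighborSet v).ncard = t + 1 + t}) (by simp)
      (fun x => ⟨_, hd x⟩) fun a b e => by simpa [E] using e
    exact_mod_cast this
  · rintro _ ⟨k, V, _, _, G, -, h, hn, rfl⟩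
    exact (upper h hn).chromaticNumber_le

end Pool.Agent.Results.MP_26d357_co.Exact
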